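import Pool.Agent.Lib_MP_6b99df_fc.UnipB

/-!
# MP_6b99df_co: bounded blocking sets and conics

`PG p` are the points (and the lines) of `PG(2,p)`, `OnConic M P` says that the point `P` is a zero of
the quadratic form with the symmetric matrix `M`, `Blocking B` that `B` meets every line, `AtMost k B`
that every line has at most `k` points of `B` (file `Lib_MP_6b99df_fc/Defs.lean`).
-/

set_option autoImplicit false

open scoped LinearAlgebra.Projectivization

namespace Pool.Agent.Results.MP_6b99df_co.FewConics

open Pool.Agent.FewConics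

/-- The matrices of the quadratic forms in three variables. -/
abbrev Mat (p : ℕ) : Type := Matrix (Fin 3) (Fin 3) (ZMod p)

/-- The points of `B` which lie on none of the conics with the matrices `M i`. -/
def Off {p : ℕ} [Fact p.Prime] {m : ℕ} (B : Set (PG p)) (M : Fin m → Mat p) : Set (PG p) :=
  {P | P ∈ B ∧ ∀ i, ¬ OnConic (M i) P}

/-- The bound of the theorem. -/
noncomputable def bound (p m : ℕ) : ℝ := p - 300 * 2 ^ m * m ^ 4 * √p

/-- Part (1): a blocking set has at least `bound p m` points off `m` nondegenerate conics. -/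
def PartOne : Prop :=
  ∀ (p : ℕ) [Fact p.Prime], p ≠ 2 → ∀ B : Set (PG p), Blocking B → ∀ m : ℕ, 0 < m →
    ∀ M : Fin m → Mat p, (∀ i, (M i).IsSymm ∧ (M i).det ≠ 0) → bound p m ≤ (Off B M).ncard

/-- Part (2): a blocking set with at most `k` points on every line has at least `bound p m - 2 k m`
points off the zero sets of `m` nonzero quadratic forms. -/
def PartTwo : Prop :=
  ∀ (p : ℕ) [Fact p.Prime], p ≠ 2 → ∀ (k : ℕ) (B : Set (PG p)), Blocking B → AtMost k B →
    ∀ m : ℕ, 0 < m → ∀ M : Fin m → Mat p, (∀ i, (M i).IsSymm ∧ M i ≠ 0) →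
      bound p m - 2 * k * m ≤ (Off B M).ncard

/-- The linear bijections. -/
abbrev Lin (p : ℕ) : Type := (Fin 3 → ZMod p) ≃ₗ[ZMod p] (Fin 3 → ZMod p)

/-- `g` is the identity on the points. -/
def Trivial {p : ℕ} [Fact p.Prime] (g : Lin p) : Prop := ∀ P : PG p, g • P = P

/-- `g` multiplies the values of a nondegenerate quadratic form by a constant. -/
def KeepsConic {p : ℕ} (g : Lin p) : Prop :=
  ∃ (M : Mat p) (mu : ZMod p), M.IsSymm ∧ M.det ≠ 0 ∧ ∀ x, qf M (g x) = mu * qf M x

/-- Part (3): symmetries. -/
def PartThree : Prop :=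
  ∀ k : ℕ, ∃ (C : ℝ) (p₀ : ℕ), ∀ (p : ℕ) [Fact p.Prime], p₀ ≤ p →
    ∀ B : Set (PG p), Blocking B → AtMost k B → ∀ g : Lin p, (∀ P ∈ B, g • P ∈ B) →
      (Trivial (g ^ p) → Trivial g) ∧
      (KeepsConic g → ∀ n : ℕ, (∀ j, 0 < j → j < n → ¬ Trivial (g ^ j)) → (n : ℝ) ≤ C * p / Real.log p)

/-- **Theorem.** (1) Let `p` be an odd prime, `B` a blocking set of `PG(2,p)` and `m ≥ 1`. At least
`p - 300 * 2 ^ m * m ^ 4 * √p` points of `B` lie on none of `m` given nondegenerate conics.
(2) If every line has at most `k` points of `B` then at least `p - 300 * 2 ^ m * m ^ 4 * √p - 2 k m`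
points of `B` lie on none of the zero sets of `m` given nonzero quadratic forms.
(3) For every `k` there are `C` and `p₀` with the following property. Let `p ≥ p₀` be a prime and `B` a
blocking set of `PG(2,p)` with at most `k` points on every line, `g` a linear bijection which maps the
points of `B` to points of `B`. If `g ^ p` is the identity on the points then `g` is the identity on the
points. If `g` multiplies the values of a nondegenerate quadratic form by a constant, and no `g ^ j`,
`0 < j < n`, is the identity on the points, then `n ≤ C p / log p`. -/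
theorem result : PartOne ∧ PartTwo ∧ PartThree := by
  refine ⟨fun p _ hp2 B hB m hm M hM => family_bound hp2 B hB m hm M (fun i => (hM i).1)
    fun i => (hM i).2, fun p _ hp2 k B hB hk m hm M hM => bounded_family hp2 k B hB hk m hm M
    (fun i => (hM i).1) fun i => (hM i).2, fun k => ?_⟩
  obtain ⟨C, p₀, h⟩ := large_order k
  obtain ⟨p₁, h'⟩ := no_order_p k
  refine ⟨C, max p₀ p₁, fun p _ hp B hB hk g hgB =>
    ⟨fun hg => h' p ((le_max_right _ _).trans hp) B hB hk g hgB hg,
      fun hM n hn => h p ((le_max_left _ _).trans hp) B hB hk g hgB hM n fun j hj hjn => ?_⟩⟩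
  have := hn j hj hjn
  unfold Trivial at this
  push Not at this
  exact this

end Pool.Agent.Results.MP_6b99df_co.FewConics
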